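import Pool.Agent.Helper71.PR.Basic

/-!
# Project PR (MP_af9e5e_al), packet STR
-/

set_option autoImplicit false

namespace Pool.Agent.Helper3.PR

open Matrix Pool.Agent.Helper71.PR

theorem str : G_STR := by
  intro n Γ S hS k hk u hu hku i j hij
  have hne : i ≠ j := by intro he; rw [he] at hij; omega
  have hlt : i < j := by show (i : ℕ) < j; omega
  obtain ⟨c, hc⟩ : ∃ c, c = u i j := ⟨_, rfl⟩
  obtain ⟨w, hw⟩ : ∃ w : Equiv.Perm (Fin n), w = Equiv.swap i j := ⟨_, rfl⟩
  have hwi : w i = j := by rw [hw, Equiv.swap_apply_left]
  have hwj : w j = i := by rw [hw, Equiv.swap_apply_right]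
  have hwo : ∀ a, a ≠ i → a ≠ j → w a = a := fun a h1 h2 => by rw [hw, Equiv.swap_apply_of_ne_of_ne h1 h2]
  have hww : ∀ a, w (w a) = a := fun a => by rw [hw, Equiv.swap_apply_self]
  have h1 : k.submatrix id w ∈ S := hS.perm k hk w
  have h2 : (k * u).submatrix id w ∈ S := hS.perm _ hku w
  have h3 : (k * u).submatrix id w = k.submatrix id w * u.submatrix w w := by
    rw [Matrix.submatrix_mul_equiv k u id w w]
  have h4 : UppU (Matrix.transvection j i (-c) * u.submatrix w w) := by
    refine ⟨fun a => ?_, fun a b hba => ?_⟩
    · by_cases ha : a = j
      · subst ha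
        rw [Matrix.transvection_mul_apply_same, Matrix.submatrix_apply, Matrix.submatrix_apply, hwj, hwi, hu.1, hu.2 _ _ hlt]
        ring
      · rw [Matrix.transvection_mul_apply_of_ne _ _ _ _ ha, Matrix.submatrix_apply, hu.1]
    · by_cases ha : a = j
      · subst ha
        rw [Matrix.transvection_mul_apply_same, Matrix.submatrix_apply, Matrix.submatrix_apply, hwj, hwi]
        by_cases hb : b = i
        · subst hb
          rw [hwi, hu.1, ← hc]
          ring
        · have hb' : b < i := by
            have : (b : ℕ) < a := hba
            have : (b : ℕ) ≠ i := fun h => hb (Fin.ext h)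
            show (b : ℕ) < i
            omega
          rw [hwo b hb (ne_of_lt hba), hu.2 _ _ hb', hu.2 _ _ hba]
          ring
      · rw [Matrix.transvection_mul_apply_of_ne _ _ _ _ ha, Matrix.submatrix_apply]
        apply hu.2
        have hba' : (b : ℕ) < a := hba
        have haj : (a : ℕ) ≠ j := fun h => ha (Fin.ext h)
        by_cases hai : a = i
        · subst hai
          rw [hwi, hwo b (ne_of_lt hba) (ne_of_lt (lt_trans hba hlt))]
          exact lt_trans hba hlt
        · have hai' : (a : ℕ) ≠ i := fun h => hai (Fin.ext h)
          rw [hwo a hai ha]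
          by_cases hb : b = i
          · subst hb
            rw [hwi]
            show (j : ℕ) < a
            omega
          · by_cases hb2 : b = j
            · subst hb2
              rw [hwj]
              exact lt_trans hlt hba
            · rw [hwo b hb hb2]
              exact hba
  have h5 : u.submatrix w w = Matrix.transvection j i c * (Matrix.transvection j i (-c) * u.submatrix w w) := by
    rw [← Matrix.mul_assoc, Matrix.transvection_mul_transvection_same _ _ hne.symm, add_neg_cancel, Matrix.transvection_zero,
      Matrix.one_mul]
  generalize Matrix.transvection j i (-c) * u.submatrix w w = v at h4 h5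
  have h6 : (k * u).submatrix id w * v⁻¹ = k.submatrix id w * Matrix.transvection j i c := by
    rw [h3, h5, ← Matrix.mul_assoc, Matrix.mul_assoc _ v, Matrix.mul_nonsing_inv v h4.isUnit, Matrix.mul_one]
  have h7 : LowT (Matrix.transvection j i c) := by
    intro a b hab
    rw [Matrix.transvection, Matrix.add_apply, Matrix.one_apply_ne (ne_of_lt hab), zero_add]
    apply Matrix.single_apply_of_ne
    rintro ⟨rfl, rfl⟩
    exact absurd hab (not_lt.2 hlt.le)
  have h8 : (Matrix.transvection j i c).det ≠ 0 := by
    rw [Matrix.det_transvection_of_ne _ _ hne.symm]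
    exact one_ne_zero
  have h9 := hS.s3 _ h2 _ h1 _ _ h4.inv h7 h8 h6
  rw [h6] at h9
  have h10 := hS.perm _ h9 w
  have h11 : (k.submatrix id w * Matrix.transvection j i c).submatrix id w = k * Matrix.transvection i j c := by
    have e1 : (k.submatrix id w * Matrix.transvection j i c).submatrix id w =
        (k.submatrix id w).submatrix id w * (Matrix.transvection j i c).submatrix w w := by
      rw [Matrix.submatrix_mul_equiv _ _ id w w]
    have e2 : (k.submatrix id w).submatrix id w = k := by
      ext a b
      rw [Matrix.submatrix_apply, Matrix.submatrix_apply, hww]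
      rfl
    have e3 : (Matrix.transvection j i c).submatrix w w = Matrix.transvection i j c := by
      ext a b
      rw [Matrix.submatrix_apply, Matrix.transvection, Matrix.transvection, Matrix.add_apply, Matrix.add_apply,
        Matrix.one_apply, Matrix.one_apply, Matrix.single_apply, Matrix.single_apply]
      have f1 : (w a = w b) = (a = b) := propext w.injective.eq_iff
      have f2 : (j = w a) = (i = a) := by
        rw [← hwi]; exact propext w.injective.eq_iff
      have f3 : (i = w b) = (j = b) := by
        rw [← hwj]; exact propext w.injective.eq_iff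
      simp only [f1, f2, f3]
    rw [e1, e2, e3]
  rw [h11, hc] at h10
  exact h10

end Pool.Agent.Helper3.PR
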